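import Pool.Agent.TH771.LH.Tally
import Pool.Agent.TH771.CX.NLow4
import Pool.Agent.TH771.CX.NClose
import Pool.Agent.H591R3.PHG.Cover
import Pool.Agent.H591R3.PHG.LangSig
import Pool.Agent.H620R2.Gauge.NonNull
import Pool.Agent.H620R2.GaugeX.NonNullX
import Pool.Agent.H620R2.Gauge2.Null
import Pool.Agent.W900.CH.NELev

/-!
# The refined low and high hierarchies relative to all oracles near a random oracle
-/

set_option autoImplicit false

namespace Pool.Agent.TH771.LH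

open Pool.Agent.NPC Pool.Agent.H620R2.Gauge Pool.Agent.H622R2.Exp
open Pool.Agent.H490R3.LH (Low LowD High HighD Sig Del sig_iff p_INC p_T2 p_SB t_SJ)
open Pool.Agent.TH680.LHD (AllNP RIsNP RIsP isNP_iff isP_iff sig_one allNP)
open Pool.Agent.W900.CH (Close)
open Pool.Agent.H628R3.RO (randomOracle)
open MeasureTheory Filter

/-- the sets in `L₁` are the sets in `NP` with complements in `NP` -/
theorem low_one_iff {A : Oracle} {T : Set (List Bool)} :
    T ∈ Low A 1 ↔ IsNP A T ∧ IsNP A Tᶜ := by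
  constructor
  · intro h
    refine ⟨Pool.Agent.TH680.LHD.isNP_iff.1 h.1, sig_one.1 (h.2 Tᶜ ?_)⟩
    rw [p_SB.2.1]
    exact (p_SB.1 _ _ (t_SJ A T).2.2.1).2
  · rintro ⟨h1, h2⟩
    have h1' : RIsNP A T := Pool.Agent.TH680.LHD.isNP_iff.2 h1
    have h2' : Pool.Agent.H628R3.RO.IsCoNP A T := Pool.Agent.TH680.LHD.isNP_iff.2 h2
    refine ⟨h1', fun M hM => ?_⟩
    rw [p_SB.2.1] at hM ⊢
    obtain ⟨h4, h5⟩ := (t_SJ A T).2.2.2 h1' h2'
    refine Pool.Agent.H490R3.LH.p_C1 A {z | Pool.Agent.H490R3.LH.join A T z = true} M h4 h5 ?_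
    rw [Pool.Agent.TH680.LHD.chr_join]
    exact hM

/-- `NE` not closed under complement: a tally set in `L̂₂` which is not in `L₁` -/
theorem tally_of_hit2 {A : Oracle} (h : ¬ InNTime Lin A (hit2 A)ᶜ) :
    Low A 1 ⊂ LowD A 2 ∧ ∃ T, Tally T ∧ T ∈ LowD A 2 ∧ T ∉ Low A 1 := by
  by_contra hcon
  apply h
  refine ne_of_tally (fun T hT hN => ?_) (hit2_ntime good_Lin A)
  by_contra h2
  apply hcon
  have h3 : ∀ x ∈ T, x = List.replicate x.length true := hT
  refine ⟨Pool.Agent.TH680.LHD.low_ssubset hN h2 h3, T, hT, ?_, fun h4 => h2 (low_one_iff.1 h4).2⟩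
  exact p_T2 A T (Pool.Agent.TH680.LHD.isNP_iff.2 hN) (fun x hx => ⟨_, h3 x hx⟩)

/-- `NE` closed under complement: the tally sets in `NP` are in `L₁` -/
theorem tally_low {A : Oracle} (h : ∀ L, InNTime Lin A L → InNTime Lin A Lᶜ)
    {T : Set (List Bool)} (hT : Tally T) (hN : RIsNP A T) : T ∈ Low A 1 := by
  have h1 : IsNP A T := Pool.Agent.TH680.LHD.isNP_iff.1 hN
  exact low_one_iff.2 ⟨h1, tally_of_ne h hT h1⟩

/-- `PSPACE ⊆ P` -/
theorem all_of_P {A : Oracle} (h : ∀ L, IsPSPACE A L → IsP A L) (k : ℕ) : AllNP A k :=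
  allNP (j := 0) (fun L hL => Pool.Agent.TH680.LHD.isP_iff.2 (h L hL)) (Nat.zero_le k)

/-- `PSPACE ⊆ NP` -/
theorem all_of_NP {A : Oracle} (h : ∀ L, IsPSPACE A L → IsNP A L) :
    (∀ k, 2 ≤ k → AllNP A k) ∧ Low A 1 = {T | RIsNP A T} := by
  constructor
  · intro k hk
    exact allNP (j := 2) (fun L hL => Pool.Agent.TH680.LHD.del_of_sig (sig_one.2 (h L hL))) hk
  · ext T
    constructor
    · exact fun hT => hT.1
    · intro hT
      have h1 : IsNP A T := Pool.Agent.TH680.LHD.isNP_iff.1 hT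
      refine low_one_iff.2 ⟨h1, h _ ?_⟩
      exact h1.isPSPACE.compl

end Pool.Agent.TH771.LH
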