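import Pool.Agent.TH680.LHD.Lev
import Pool.Agent.TH93.NX.Main

/-!
# Tally sets and nondeterministic linear exponential time

Relative to every oracle: `NE` is closed under complement if and only if the complements of the
tally sets in `NP` are in `NP` (Book; here with the encodings of this library).
-/

set_option autoImplicit false

namespace Pool.Agent.TH771.LH

open Pool.Agent.NPC Pool.Agent.H620R2.Gauge Pool.Agent.H622R2.Exp Pool.Agent.TH93.NX

/-- the number of a string -/
def num (x : List Bool) : ℕ := valB (x ++ [true])

/-- the string with a given number -/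
def dec (k : ℕ) : List Bool := k.bits.reverse.tail.reverse

theorem bits_num (x : List Bool) : (num x).bits = x ++ [true] := by
  unfold num
  induction x with
  | nil => rfl
  | cons b x ih =>
    have h0 : valB (x ++ [true]) ≠ 0 := by
      intro h
      rw [h] at ih
      simp at ih
    rw [List.cons_append, valB_cons]
    have h1 : (if b then 1 else 0) + 2 * valB (x ++ [true]) = Nat.bit b (valB (x ++ [true])) := by
      cases b
      · simp [Nat.bit]
      · simp [Nat.bit, add_comm]
    rw [h1, Nat.bits_append_bit _ _ fun h => absurd h h0, ih]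

theorem dec_num (x : List Bool) : dec (num x) = x := by
  unfold dec
  rw [bits_num]
  simp

theorem num_lt (x : List Bool) : num x < 2 ^ (x.length + 1) := by
  have := valB_lt (x ++ [true])
  simpa [num] using this

theorem length_dec (k : ℕ) : 2 ^ (dec k).length ≤ k + 1 := by
  unfold dec
  rw [List.length_reverse, List.length_tail, List.length_reverse]
  rcases Nat.eq_zero_or_pos k with h | h
  · subst h
    simp
  · have h1 : k.bits.length = Nat.size k := Nat.size_eq_bits_len k
    rw [h1]
    have h2 : 0 < Nat.size k := Nat.size_pos.2 h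
    have h3 : 2 ^ (Nat.size k - 1) ≤ k := Nat.lt_size.1 (by omega)
    omega

/-- the tally string of a string -/
def un (x : List Bool) : List Bool := List.replicate (num x) true

theorem length_un (x : List Bool) : (un x).length = num x := List.length_replicate

theorem poly_dec : Poly (fun y : List Bool => dec y.length) :=
  Poly.reverse (Poly.tail (Poly.reverse (Poly.natBits (Poly.length Poly.id))))

/-- the padded string as a function of the tally string -/
theorem poly_pad : Poly (fun y : List Bool => padq q4 (dec y.length)) := by
  have h1 : Poly (fun y : List Bool => q4.eval (dec y.length).length) :=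
    ((UPoly.length poly_dec).eval q4).toPoly
  have h3 : Poly (fun y : List Bool => List.replicate (q4.eval (dec y.length).length) false) :=
    (NPC.Poly.map (F := fun _ _ => false) ((UPoly.length poly_dec).eval q4)
      (NPC.Poly.const false)).congr fun a => by simp
  have h4 : Poly (fun y : List Bool => 2 ^ q4.eval (dec y.length).length) :=
    (Poly.valBits (Poly.append h3 (NPC.Poly.const [true]))).congr fun a => by
      rw [valB_replicate_false]
      simp
  have h5 : UPoly (fun y : List Bool => 2 ^ q4.eval (dec y.length).length) := by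
    refine UPoly.of_le h4 ((UPoly.length (Poly.id (α := List Bool))).eval
      (Polynomial.C 16 * (Polynomial.X + 1) ^ 4)) fun y => ?_
    have h6 := length_dec y.length
    have h7 : q4.eval (dec y.length).length = 4 + 4 * (dec y.length).length := by
      unfold q4
      simp only [Polynomial.eval_mul, Polynomial.eval_C, Polynomial.eval_add, Polynomial.eval_X,
        Polynomial.eval_one]
      ring
    rw [h7, pow_add, mul_comm 4, pow_mul]
    simp only [Polynomial.eval_mul, Polynomial.eval_C, Polynomial.eval_pow, Polynomial.eval_add,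
      Polynomial.eval_X, Polynomial.eval_one]
    norm_num
    exact Nat.pow_le_pow_left h6 4
  have h6 : Poly (fun y : List Bool => List.replicate (2 ^ q4.eval (dec y.length).length) true) :=
    (NPC.Poly.map (F := fun _ _ => true) h5 (NPC.Poly.const true)).congr fun a => by simp
  exact H622R2.poly_pairBits poly_dec h6

/-- from a padded string to the tally string -/
noncomputable def toun (z : List Bool) : List Bool :=
  List.replicate (if chk z then num (unpair z).1 else 0) true

theorem toun_pad (x : List Bool) : toun (padq q4 x) = un x := by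
  unfold toun un
  rw [if_pos ((chk_iff _).2 ⟨x, rfl⟩)]
  unfold padq
  rw [unpair_pairBits]

theorem poly_toun : Poly toun := by
  have hx : Poly (fun z : List Bool => (unpair z).1) := Poly.fst poly_unpair
  have h1 : Poly (fun z : List Bool => num (unpair z).1) :=
    Poly.valBits (Poly.append hx (NPC.Poly.const [true]))
  have h2 : Poly (fun z : List Bool => if chk z then num (unpair z).1 else 0) :=
    Poly.ite poly_chk h1 (NPC.Poly.const 0)
  have h3 : UPoly (fun z : List Bool => if chk z then num (unpair z).1 else 0) := by
    refine UPoly.of_le h2 (UPoly.length (Poly.id (α := List Bool))) fun z => ?_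
    split_ifs with h
    · obtain ⟨x, rfl⟩ := (chk_iff z).1 h
      have h4 := num_lt x
      have h5 : (padq q4 x).length = mm x.length := E0.length_padq4 x
      have h6 : 2 ^ (x.length + 1) ≤ 2 ^ (4 * (x.length + 1)) :=
        Nat.pow_le_pow_right (by norm_num) (by omega)
      have h7 : (unpair (padq q4 x)).1 = x := by
        unfold padq
        rw [unpair_pairBits]
      rw [h7]
      show num x ≤ (padq q4 x).length
      rw [h5]
      unfold mm
      omega
    · exact Nat.zero_le _
  exact (NPC.Poly.map (F := fun _ _ => true) h3 (NPC.Poly.const true)).congr fun a => by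
    simp [toun]

/-- a string is a tally string -/
def IsUn (y : List Bool) : Prop := y = List.replicate y.length true

instance : DecidablePred IsUn := fun y => by unfold IsUn; infer_instance

/-- `L` consists of tally strings -/
def Tally (L : Set (List Bool)) : Prop := ∀ y ∈ L, IsUn y

open Pool.Agent.TH680.LHD Pool.Agent.H673R2.OneTT Pool.Agent.H673R2.OneOne in
theorem np_red {A : Oracle} {L : Set (List Bool)} (hL : IsNP A L) {F : List Bool → List Bool}
    (hF : Poly F) : IsNP A {z | F z ∈ L} :=
  isNP_iff.1 (Pool.Agent.H673R2.OneOne.IsNP.red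
    ⟨F, Pool.Agent.H628R3.RO.IsFP.of_poly hF, fun _ => Iff.rfl⟩ (isNP_iff.2 hL))

open Pool.Agent.TH680.LHD Pool.Agent.H673R2.OneTT in
theorem np_inter {A : Oracle} {L : Set (List Bool)} (hL : IsNP A L) {b : List Bool → Bool}
    (hb : Poly b) : IsNP A {z | b z = true ∧ z ∈ L} :=
  isNP_iff.1 (Pool.Agent.H673R2.OneOne.IsNP.inter (isNP_of_poly A hb) (isNP_iff.2 hL))

open Pool.Agent.TH680.LHD Pool.Agent.H673R2.OneTT in
theorem np_union {A : Oracle} {L : Set (List Bool)} (hL : IsNP A L) {b : List Bool → Bool}
    (hb : Poly b) : IsNP A {z | b z = true ∨ z ∈ L} :=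
  isNP_iff.1 (Pool.Agent.H673R2.OneOne.IsNP.union (isNP_of_poly A hb) (isNP_iff.2 hL))

theorem poly_isUn : Poly (fun y : List Bool => decide (IsUn y)) := by
  have h1 : Poly (fun y : List Bool => List.replicate y.length true) :=
    (NPC.Poly.map (F := fun _ _ => true) (UPoly.length (Poly.id (α := List Bool)))
      (NPC.Poly.const true)).congr fun a => by simp
  exact Poly.decide_eq Poly.id h1

/-- From a set of tally strings in `NP` to a language in `NE`. -/
theorem ne_of_np {A : Oracle} {L : Set (List Bool)} (hL : IsNP A L) :
    InNTime Lin A {x | un x ∈ L} := by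
  have h1 := IsNP.pad good_Lin (np_red hL poly_toun) (q := q4) ⟨4, rfl⟩
  have h2 : {x | padq q4 x ∈ {z | toun z ∈ L}} = {x | un x ∈ L} := by
    ext x
    simp only [Set.mem_ofPred_eq, toun_pad]
  rwa [h2] at h1

/-- the verifier -/
noncomputable def vv (c : ℕ) (V : List Bool → List Bool) (z : List Bool) : List Bool :=
  if (unpair z).1.length ≤ 2 ^ (Polynomial.C c * (Polynomial.X + 1) : Polynomial ℕ).eval
    (dec (unpair z).2.length).length then V (pairBits (unpair z).1 (dec (unpair z).2.length))
  else []

theorem pow_dec_le (c k : ℕ) :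
    2 ^ (Polynomial.C c * (Polynomial.X + 1) : Polynomial ℕ).eval (dec k).length ≤
      ((Polynomial.C 2 * (Polynomial.X + 1)) ^ c : Polynomial ℕ).eval k := by
  simp only [Polynomial.eval_mul, Polynomial.eval_C, Polynomial.eval_pow, Polynomial.eval_add,
    Polynomial.eval_X, Polynomial.eval_one]
  rw [mul_comm c, pow_mul]
  apply Nat.pow_le_pow_left
  rw [pow_succ]
  have := length_dec k
  omega

/-- From a language in `NE` to a set in `NP`. -/
theorem np_of_ne {A : Oracle} {L : Set (List Bool)} (hL : InNTime Lin A L) :
    IsNP A {y | dec y.length ∈ L} := by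
  obtain ⟨V, hV, q, ⟨c, rfl⟩, h⟩ := hL
  have hw : Poly (fun z : List Bool => (unpair z).1) := Poly.fst poly_unpair
  have hy : Poly (fun z : List Bool => (unpair z).2) := Poly.snd poly_unpair
  have hd : Poly (fun z : List Bool => dec (unpair z).2.length) := poly_dec.comp hy
  have hp : Poly (fun z : List Bool => 2 ^ (Polynomial.C c * (Polynomial.X + 1) :
      Polynomial ℕ).eval (dec (unpair z).2.length).length) := by
    have h3 : Poly (fun z : List Bool => List.replicate ((Polynomial.C c * (Polynomial.X + 1) :
        Polynomial ℕ).eval (dec (unpair z).2.length).length) false) :=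
      (NPC.Poly.map (F := fun _ _ => false) ((UPoly.length hd).eval
        (Polynomial.C c * (Polynomial.X + 1))) (NPC.Poly.const false)).congr fun a => by
          rw [List.map_const', List.length_replicate]
    exact (Poly.valBits (Poly.append h3 (NPC.Poly.const [true]))).congr fun a => by
      rw [valB_replicate_false]
      simp
  have hF : IsFP A (fun z => V (pairBits (unpair z).1 (dec (unpair z).2.length))) :=
    IsFP.comp hV (IsFP.of_poly (H622R2.poly_pairBits hw hd))
  have hS := IsFP.seq (φ := fun p => p.1)
    (ψ := fun u : List Bool × List Bool × List Bool => if (unpair u.1).1.length ≤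
      2 ^ (Polynomial.C c * (Polynomial.X + 1) : Polynomial ℕ).eval
        (dec (unpair u.1).2.length).length then u.2.1 else [])
    hF (IsFP.of_poly (A := A) Poly.id) (Poly.fst Poly.id)
    (Poly.ite (Poly.decide_le ((Poly.length hw).comp (Poly.fst Poly.id))
      (hp.comp (Poly.fst Poly.id))) (Poly.fst (Poly.snd Poly.id)) (NPC.Poly.const []))
  refine ⟨_, (Polynomial.C 2 * (Polynomial.X + 1)) ^ c, hS, fun y => ?_⟩
  simp only [unpair_pairBits, Set.mem_ofPred_eq]
  rw [h]
  constructor
  · rintro ⟨w, hw, hVw⟩
    refine ⟨w, hw.trans (pow_dec_le c _), ?_⟩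
    rw [if_pos hw]
    exact hVw
  · rintro ⟨w, hw, hVw⟩
    by_cases hc : w.length ≤ 2 ^ (Polynomial.C c * (Polynomial.X + 1) :
        Polynomial ℕ).eval (dec y.length).length
    · rw [if_pos hc] at hVw
      exact ⟨w, hc, hVw⟩
    · rw [if_neg hc] at hVw
      exact absurd hVw (by simp)

theorem last_bits {k : ℕ} (hk : k ≠ 0) : ∃ l, k.bits = l ++ [true] := by
  induction k using Nat.binaryRec' with
  | zero => exact absurd rfl hk
  | bit b n hb ih =>
    rw [Nat.bits_append_bit _ _ hb]
    by_cases hn : n = 0
    · rw [hb hn, hn]
      exact ⟨[], rfl⟩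
    · obtain ⟨l, hl⟩ := ih hn
      exact ⟨b :: l, by rw [hl]; rfl⟩

theorem num_dec {k : ℕ} (hk : k ≠ 0) : num (dec k) = k := by
  obtain ⟨l, hl⟩ := last_bits hk
  have h1 : dec k = l := by
    unfold dec
    rw [hl]
    simp
  unfold num
  rw [h1, ← hl, valB_bits]

theorem un_dec {y : List Bool} (h : IsUn y) (h0 : y ≠ []) : un (dec y.length) = y := by
  have hk : y.length ≠ 0 := fun h => h0 (List.length_eq_zero_iff.1 h)
  unfold un
  rw [num_dec hk]
  exact h.symm

/-- Relative to every oracle: if `NE` is closed under complement, so are the tally sets in `NP`. -/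
theorem tally_of_ne {A : Oracle} (h : ∀ L, InNTime Lin A L → InNTime Lin A Lᶜ)
    {T : Set (List Bool)} (hT : Tally T) (hN : IsNP A T) : IsNP A Tᶜ := by
  classical
  have h1 := np_of_ne (h _ (ne_of_np hN))
  have h2 : Poly (fun y : List Bool => !decide (y = [])) :=
    Poly.not (Poly.decide_eq Poly.id (NPC.Poly.const []))
  have h3 := np_inter h1 h2
  have h4 : Poly (fun y : List Bool => !decide (IsUn y)) := Poly.not poly_isUn
  have h5 := np_union h3 h4
  have key : ∀ y, y ≠ [] → (y ∈ Tᶜ ↔ ((!decide (IsUn y)) = true ∨ ((!decide (y = [])) = true ∧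
      dec y.length ∈ {x | un x ∈ T}ᶜ))) := by
    intro y h0
    by_cases h6 : IsUn y
    · simp only [h6, h0, decide_true, decide_false, Bool.not_true, Bool.not_false,
        Bool.false_eq_true, false_or, true_and, Set.mem_compl_iff, Set.mem_ofPred_eq,
        un_dec h6 h0]
    · have h7 : y ∉ T := fun h => h6 (hT y h)
      simp [h6, h7]
  have hnil : IsUn ([] : List Bool) := rfl
  by_cases h0 : [] ∈ T
  · have h6 : {z | (!decide (IsUn z)) = true ∨ z ∈ {z | (!decide (z = [])) = true ∧
        z ∈ {y : List Bool | dec y.length ∈ {x | un x ∈ T}ᶜ}}} = Tᶜ := by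
      ext y
      by_cases hy : y = []
      · subst hy
        simp [hnil, h0]
      · rw [key y hy]
        rfl
    rwa [h6] at h5
  · have h6 := np_union h5 (b := fun y => decide (y = []))
      (Poly.decide_eq Poly.id (NPC.Poly.const []))
    have h7 : {z | decide (z = []) = true ∨ z ∈ {z | (!decide (IsUn z)) = true ∨
        z ∈ {z | (!decide (z = [])) = true ∧
        z ∈ {y : List Bool | dec y.length ∈ {x | un x ∈ T}ᶜ}}}} = Tᶜ := by
      ext y
      by_cases hy : y = []
      · subst hy
        simp [h0]
      · rw [key y hy]
        simp only [Set.mem_ofPred_eq, hy, decide_false, Bool.false_eq_true, false_or]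
    rwa [h7] at h6

/-- Relative to every oracle: if the tally sets in `NP` are closed under complement, so is `NE`. -/
theorem ne_of_tally {A : Oracle} (h : ∀ T, Tally T → IsNP A T → IsNP A Tᶜ)
    {L : Set (List Bool)} (hL : InNTime Lin A L) : InNTime Lin A Lᶜ := by
  have h1 := np_inter (np_of_ne hL) poly_isUn
  have h1T : Tally {z | decide (IsUn z) = true ∧ z ∈ {y : List Bool | dec y.length ∈ L}} :=
    fun y hy => of_decide_eq_true hy.1
  have h2 := ne_of_np (h _ h1T h1)
  have h3 : {x | un x ∈ {z | decide (IsUn z) = true ∧ z ∈ {y : List Bool | dec y.length ∈ L}}ᶜ} =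
      Lᶜ := by
    ext x
    have h4 : IsUn (un x) := by
      unfold IsUn un
      rw [List.length_replicate]
    simp only [Set.mem_ofPred_eq, Set.mem_compl_iff, h4, decide_true, true_and, length_un,
      dec_num]
  rwa [h3] at h2

end Pool.Agent.TH771.LH
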